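import Pool.Agent.Helper42.DB.Goals4
import Pool.Agent.Helper11.DB.TRG

/-! Packet TRG0 of MP_48f005_an: periodic orbits whose tangential collisions are not counted. -/

set_option autoImplicit false

namespace Pool.Agent.Helper42.DB.PkTRG0

open Set Filter Topology
open Pool.Agent.Helper42.DB.PkTRG

theorem states {C : CTab} {S : Sys} (hRef : Refines C S C.DD) {z : ℕ → ℂ × ℂ} {p : ℕ}
    (hp : 0 < p) (hz : ∀ k, BStep C.Y C.RP True (z k) (z (k + 1))) (hzp : ∀ k, z (k + p) = z k) :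
    ∃ x : ℕ → St S, (∀ k, FlG (x k) (x (k + 1))) ∧ (∀ k, x (k + p) = x k) ∧
      (∀ k, Φ (x k) = z k) ∧ InjOn Φ (range x) ∧ ∀ k, ((z k).1, ee (x k).u) ∈ C.RP := by
  obtain ⟨hY, hR1, hR2⟩ := hRef
  have hB' : BOrb C.Y C.RP True (range z) := ⟨z, p, hp, hz, hzp, rfl⟩
  have hstate : ∀ X : range z, ∃ x : St S, x.OkG ∧ Φ x = X.1 ∧ (X.1.1, ee x.u) ∈ C.RP := by
    rintro ⟨X, hX⟩
    obtain ⟨k, hk⟩ := hX
    obtain ⟨h1, N, M, τ, h2, _, _, _, _, h7, _, _⟩ := hz k
    rw [hk] at h1 h2 h7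
    have hDD : X.1 ∈ C.DD := ⟨range z, hB', X.2, ⟨k, hk⟩⟩
    obtain ⟨i, u, hu, hg, he⟩ := hR2 X.1 N h2 hDD
    have h10 : 0 ≤ dt X.2 (ee u) := by
      rw [he]
      rcases h7 with h7 | h7
      · exact h7.le
      · exact h7.2.ge
    obtain ⟨φ, hφ, hv⟩ := exists_phi h1 u h10
    refine ⟨⟨i, u, φ⟩, ⟨hu, hφ⟩, ?_, ?_⟩
    · apply Prod.ext
      · exact hg
      · exact hv.symm
    · show (X.1, ee u) ∈ C.RP
      rw [he]
      exact h2
  choose F hF1 hF2 hF3 using hstate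
  have hmem : ∀ k, z k ∈ range z := fun k => mem_range_self k
  let x : ℕ → St S := fun k => F ⟨z k, hmem k⟩
  have hxpos : ∀ k, (x k).pos = (z k).1 := fun k => congrArg Prod.fst (hF2 ⟨z k, hmem k⟩)
  have hxth : ∀ k, ee (x k).th = (z k).2 := fun k => congrArg Prod.snd (hF2 ⟨z k, hmem k⟩)
  have hxRP : ∀ k, ((z k).1, ee (x k).u) ∈ C.RP := fun k => hF3 ⟨z k, hmem k⟩
  have hxper : ∀ k, x (k + p) = x k := fun k =>
    congrArg F (Subtype.ext (hzp k))
  have hΦ : ∀ k, Φ (x k) = z k := fun k => hF2 ⟨z k, hmem k⟩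
  have hinj : InjOn Φ (range x) := by
    rintro _ ⟨k, rfl⟩ _ ⟨l, rfl⟩ hkl
    rw [hΦ, hΦ] at hkl
    exact congrArg F (Subtype.ext hkl)
  refine ⟨x, ?_, hxper, hΦ, hinj, hxRP⟩
  intro k
  obtain ⟨h1, N, M, τ, h2, h3, h4, h5, h6, h7, h8, h9⟩ := hz k
  have hM : M = ee (x (k + 1)).u := unique_normal C h3 (hxRP (k + 1))
  refine ⟨hF1 _, hF1 _, ?_, τ, h4, ?_, ?_⟩
  · have hbk : ee (x (k + 1)).bk = (2 * Real.cos (x (k + 1)).φ) • ee (x (k + 1)).u -
        ee (x (k + 1)).th := ee_refl _ _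
    have hcos : Real.cos (x (k + 1)).φ = -dt (z k).2 M := by
      have h10 : Real.cos (x (k + 1)).φ = dt (ee (x (k + 1)).u) (ee (x (k + 1)).th) := by
        rw [dt_ee_ee]
        congr 1
        unfold St.th
        ring
      rw [h10, hxth, h9, ← hM]
      have h11 : ((2 * dt (z k).2 M : ℝ) : ℂ) * M = (2 * dt (z k).2 M) • M := by
        rw [Complex.real_smul]
      rw [h11, dt_sub_right, dt_smul_right, dt_self, hM, norm_ee, dt_comm (ee _) (z k).2]
      ring
    rw [hbk, hcos, hxth (k + 1), h9, hxth k, ← hM]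
    have h11 : ((2 * dt (z k).2 M : ℝ) : ℂ) * M = (2 * dt (z k).2 M) • M := by
      rw [Complex.real_smul]
    rw [h11]
    have h12 : (2 * -dt (z k).2 M) • M = -((2 * dt (z k).2 M) • M) := by
      rw [← neg_smul]
      congr 1
      ring
    rw [h12]
    ring
  · rw [hxpos, hxpos, hxth, h5, Complex.real_smul]
  · intro s hs
    rw [hxpos, hxth, hY, Complex.real_smul]
    exact h6 s hs

theorem dt_eq_cos {S : Sys} (x : St S) : dt (ee x.th) (ee x.u) = Real.cos x.φ := by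
  rw [dt_ee_ee, ← Real.cos_neg]
  congr 1
  unfold St.th
  ring

theorem trans_iff {C : CTab} {S : Sys} {x : St S} {X : ℂ × ℂ} (hx : x.OkG) (hX : Φ x = X)
    (hRP : (X.1, ee x.u) ∈ C.RP) : BTrans C.RP X ↔ |x.φ| < Real.pi / 2 := by
  have hv : ee x.th = X.2 := congrArg Prod.snd hX
  constructor
  · rintro ⟨N, hN, hd⟩
    have hNe : N = ee x.u := unique_normal C hN hRP
    rw [hNe, ← hv, dt_eq_cos] at hd
    rcases lt_or_eq_of_le hx.2 with h | h
    · exact h
    · exfalso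
      rw [← Real.cos_abs, h, Real.cos_pi_div_two] at hd
      exact lt_irrefl _ hd
  · intro h
    refine ⟨ee x.u, hRP, ?_⟩
    rw [← hv, dt_eq_cos]
    exact Real.cos_pos_of_mem_Ioo ⟨(abs_lt.1 h).1, (abs_lt.1 h).2⟩

theorem finite_of_per {α : Type*} {z : ℕ → α} {p : ℕ} (hp : 0 < p) (h : ∀ k, z (k + p) = z k) :
    (range z).Finite := by
  have h1 : ∀ m k, z (k + m * p) = z k := by
    intro m
    induction m with
    | zero => intro k; simp
    | succ m ih =>
      intro k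
      have : k + (m + 1) * p = (k + m * p) + p := by ring
      rw [this, h, ih]
  have h2 : range z ⊆ z '' (Iio p) := by
    rintro _ ⟨k, rfl⟩
    refine ⟨k % p, Nat.mod_lt _ hp, ?_⟩
    have h3 := h1 (k / p) (k % p)
    rw [mul_comm, Nat.mod_add_div] at h3
    exact h3.symm
  exact ((finite_Iio p).image z).subset h2

theorem thm : G_TRG0 := by
  intro C S hRef n hT hP
  set W := {O : Set (ℂ × ℂ) | BOrb C.Y C.RP True O ∧ {x | x ∈ O ∧ BTrans C.RP x}.ncard ≤ n}
    with hW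
  set V := {O : Set (ℂ × ℂ) | BOrb C.Y C.RP False O ∧ O.ncard ≤ n} with hV
  have hVW : V ⊆ W := by
    rintro O ⟨hO, hn⟩
    refine ⟨BOrb.mono hO, ?_⟩
    obtain ⟨z, p, hp, hz, hzp, hOz⟩ := hO
    have hfin : O.Finite := hOz ▸ finite_of_per hp hzp
    exact (Set.ncard_le_ncard (fun x hx => hx.1) hfin).trans hn
  have hVfin : V.Finite := by
    refine (hP.image (fun O' : Set (St S) => Φ '' O')).subset ?_
    rintro O ⟨⟨z, p, hp, hz, hzp, hOz⟩, hn⟩
    obtain ⟨x, hx1, hx2, hx3, hx4, hx5⟩ := states hRef hp (fun k => BStep.mono (hz k)) hzp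
    have himg : Φ '' (range x) = O := by
      rw [hOz, ← range_comp]
      congr 1
      funext k
      exact hx3 k
    have htr : ∀ k, |(x k).φ| < Real.pi / 2 := by
      intro k
      rw [← trans_iff (C := C) (hx1 k).1 (hx3 k) (hx5 k)]
      obtain ⟨h1, N, M, τ, h2, h3, h4, h5, h6, h7, h8, h9⟩ := hz k
      rcases h7 with h7 | h7
      · exact ⟨N, h2, h7⟩
      · exact h7.1.elim
    refine ⟨range x, ⟨⟨x, p, hp, ?_, hx2, rfl⟩, ?_⟩, himg⟩
    · intro k
      obtain ⟨g1, g2, g3, g4⟩ := hx1 k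
      exact ⟨⟨g1.1, htr k⟩, ⟨g2.1, htr (k + 1)⟩, g3, g4⟩
    · rw [← hx4.ncard_image, himg]
      exact hn
  have hcov : W ⊆ V ∪ (fun O' : Set (St S) => Φ '' O') '' (TanOrb0 S n) := by
    rintro O ⟨⟨z, p, hp, hz, hzp, hOz⟩, hn⟩
    obtain ⟨x, hx1, hx2, hx3, hx4, hx5⟩ := states hRef hp hz hzp
    have himg : Φ '' (range x) = O := by
      rw [hOz, ← range_comp]
      congr 1
      funext k
      exact hx3 k
    have htr : ∀ k, BTrans C.RP (z k) ↔ |(x k).φ| < Real.pi / 2 := fun k =>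
      trans_iff (C := C) (hx1 k).1 (hx3 k) (hx5 k)
    have himg2 : {X | X ∈ O ∧ BTrans C.RP X} =
        Φ '' {y : St S | y ∈ range x ∧ |y.φ| < Real.pi / 2} := by
      ext X
      constructor
      · rintro ⟨h1, h2⟩
        rw [hOz] at h1
        obtain ⟨k, rfl⟩ := h1
        exact ⟨x k, ⟨mem_range_self k, (htr k).1 h2⟩, hx3 k⟩
      · rintro ⟨y, ⟨⟨k, rfl⟩, h2⟩, rfl⟩
        rw [hx3]
        exact ⟨hOz ▸ mem_range_self k, (htr k).2 h2⟩
    by_cases ht : ∃ k, |(x k).φ| = Real.pi / 2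
    · right
      obtain ⟨k, hk⟩ := ht
      refine ⟨range x, ⟨⟨x, p, hp, hx1, hx2, rfl⟩, ?_, ⟨x k, mem_range_self k, hk⟩⟩, himg⟩
      have hinj : InjOn Φ {y : St S | y ∈ range x ∧ |y.φ| < Real.pi / 2} :=
        hx4.mono (fun y hy => hy.1)
      rw [← hinj.ncard_image, ← himg2]
      exact hn
    · left
      push Not at ht
      have hall : ∀ k, |(x k).φ| < Real.pi / 2 := fun k =>
        lt_of_le_of_ne (hx1 k).1.2 (ht k)
      refine ⟨⟨z, p, hp, ?_, hzp, hOz⟩, ?_⟩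
      · intro k
        obtain ⟨h1, N, M, τ, h2, h3, h4, h5, h6, h7, h8, h9⟩ := hz k
        refine ⟨h1, N, M, τ, h2, h3, h4, h5, h6, ?_, ?_, h9⟩
        · rcases h7 with h7 | h7
          · exact Or.inl h7
          · exfalso
            obtain ⟨N', hN', hd⟩ := (htr k).2 (hall k)
            rw [unique_normal C hN' h2, h7.2] at hd
            exact lt_irrefl _ hd
        · rcases h8 with h8 | h8
          · exact Or.inl h8
          · exfalso
            have h10 : (z (k + 1)).2 = (z k).2 := by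
              rw [h9, h8.2]
              simp
            obtain ⟨N', hN', hd⟩ := (htr (k + 1)).2 (hall (k + 1))
            rw [unique_normal C hN' h3, h10, h8.2] at hd
            exact lt_irrefl _ hd
      · have hEq : {X | X ∈ O ∧ BTrans C.RP X} = O := by
          ext X
          refine ⟨fun h => h.1, fun h => ⟨h, ?_⟩⟩
          rw [hOz] at h
          obtain ⟨k, rfl⟩ := h
          exact (htr k).2 (hall k)
        rw [hEq] at hn
        exact hn
  have hfin2 : (V ∪ (fun O' : Set (St S) => Φ '' O') '' (TanOrb0 S n)).Finite :=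
    hVfin.union (hT.image _)
  have hWfin : W.Finite := hfin2.subset hcov
  refine ⟨hWfin, Set.ncard_le_ncard hVW hWfin, ?_⟩
  calc W.ncard ≤ (V ∪ (fun O' : Set (St S) => Φ '' O') '' (TanOrb0 S n)).ncard :=
        Set.ncard_le_ncard hcov hfin2
    _ ≤ V.ncard + ((fun O' : Set (St S) => Φ '' O') '' (TanOrb0 S n)).ncard :=
        Set.ncard_union_le _ _
    _ ≤ V.ncard + (TanOrb0 S n).ncard := by
        gcongr
        exact Set.ncard_image_le hT
    _ = bf C.Y C.RP False n + (TanOrb0 S n).ncard := rfl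

end Pool.Agent.Helper42.DB.PkTRG0
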